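import Pool.Agent.helper59.FI4.SpecI

set_option autoImplicit false

namespace Pool.Agent.FI4I

open Pool.Agent.helper58.DC Pool.Agent.DI Pool.Agent.GR Pool.Agent.OB Pool.Agent.DR Pool.Agent.FI Pool.Agent.FI3 Pool.Agent.FI4

section

variable {G : Type} [Group G] [Finite G]

theorem TTC_cz (hFEQ : FEQ_stmt) (M : Ideal (integralClosure ℤ ℂ)) (h : G) (D : Subgroup G) :
    cz (cjS h D) = cjS h (cz D) :=
  (hFEQ G M h h D D D (fun _ => 0) (fun _ => 0) (fun _ => 0)).2.1.1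

theorem TTC_nz (hFEQ : FEQ_stmt) (M : Ideal (integralClosure ℤ ℂ)) (h : G) (D : Subgroup G) :
    nz (cjS h D) = cjS h (nz D) :=
  (hFEQ G M h h D D D (fun _ => 0) (fun _ => 0) (fun _ => 0)).2.1.2.1

theorem TTC_fix (hFEQ : FEQ_stmt) (M : Ideal (integralClosure ℤ ℂ)) (h : G) (D : Subgroup G) (hh : h ∈ nz D) :
    cjS h D = D :=
  (hFEQ G M h h D D D (fun _ => 0) (fun _ => 0) (fun _ => 0)).2.1.2.2.2.1.2 hh

theorem TTC_card (hFEQ : FEQ_stmt) (M : Ideal (integralClosure ℤ ℂ)) (h : G) (D : Subgroup G) :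
    Nat.card (cjS h D) = Nat.card D :=
  (hFEQ G M h h D D D (fun _ => 0) (fun _ => 0) (fun _ => 0)).2.1.2.2.2.2.2

theorem TTC_SB (hFEQ : FEQ_stmt) (M : Ideal (integralClosure ℤ ℂ)) (h : G) (L : Subgroup G) (η ψ : G → ℂ) :
    SB M L η ψ ↔ SB M (cjS h L) (cjF h η) (cjF h ψ) :=
  (hFEQ G M h h L L L η ψ (fun _ => 0)).2.2.2.2.1

theorem TTC_mul (hFEQ : FEQ_stmt) (M : Ideal (integralClosure ℤ ℂ)) (g h : G) (ψ : G → ℂ) :
    cjF g (cjF h ψ) = cjF (g * h) ψ :=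
  (hFEQ G M g h ⊥ ⊥ ⊥ (fun _ => 0) ψ (fun _ => 0)).1.2.1

theorem TTC_rel (hFEQ : FEQ_stmt) (M : Ideal (integralClosure ℤ ℂ)) (h : G) (P Q : Subgroup G) :
    (cjS h P).relIndex (cjS h Q) = P.relIndex Q :=
  (hFEQ G M h h P Q P (fun _ => 0) (fun _ => 0) (fun _ => 0)).2.2.2.2.2.2.2.2

theorem TTC_mem {M : Ideal (integralClosure ℤ ℂ)} {D : Subgroup G} {θ : G → ℂ} {g : G} :
    g ∈ TT M D θ ↔ g ∈ nz D ∧ SB M (cz D) (cjF g θ) θ := Iff.rfl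

theorem TTC_le (hFEQ : FEQ_stmt) (M : Ideal (integralClosure ℤ ℂ)) (D : Subgroup G) (θ θ' : G → ℂ)
    (hs : SB M (cz D) θ θ') : TT M D θ ≤ TT M D θ' := by
  intro g hg
  obtain ⟨h1, h2⟩ := TTC_mem.1 hg
  refine TTC_mem.2 ⟨h1, ?_⟩
  have h3 := (TTC_SB hFEQ M g (cz D) θ θ').1 hs
  rw [← TTC_cz hFEQ M g D, TTC_fix hFEQ M g D h1] at h3
  exact (h3.symm.trans h2).trans hs

theorem TTC_TT (hFEQ : FEQ_stmt) (M : Ideal (integralClosure ℤ ℂ)) (D : Subgroup G) (θ : G → ℂ) (h : G) :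
    TT M (cjS h D) (cjF h θ) = cjS h (TT M D θ) := by
  ext t
  rw [TTC_mem, mem_cjS, TTC_mem, TTC_nz hFEQ M, mem_cjS, TTC_cz hFEQ M,
    TTC_SB hFEQ M h (cz D) (cjF (h⁻¹ * t * h) θ) θ, TTC_mul hFEQ M, TTC_mul hFEQ M]
  have e : h * (h⁻¹ * t * h) = t * h := by group
  rw [e]

theorem TTC_RG (hFEQ : FEQ_stmt) (M : Ideal (integralClosure ℤ ℂ)) (D : Subgroup G) (θ : G → ℂ) (h : G) :
    RG M (cjS h D) (cjF h θ) = (fun u => h * u * h⁻¹) '' RG M D θ := by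
  ext u
  constructor
  · rintro ⟨h1, h2⟩
    refine ⟨h⁻¹ * u * h, ⟨mem_cjS.1 h1, fun t ht hc => ?_⟩, by group⟩
    have h3 : h * t * h⁻¹ ∈ TT M (cjS h D) (cjF h θ) := by
      rw [TTC_TT hFEQ M, mem_cjS]
      have e : h⁻¹ * (h * t * h⁻¹) * h = t := by group
      rw [e]
      exact ht
    have h4 := h2 _ h3 (by
      calc h * t * h⁻¹ * u = h * (t * (h⁻¹ * u * h)) * h⁻¹ := by group
        _ = h * ((h⁻¹ * u * h) * t) * h⁻¹ := by rw [hc]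
        _ = u * (h * t * h⁻¹) := by group)
    rw [TTC_cz hFEQ M, mem_cjS] at h4
    have e : h⁻¹ * (h * t * h⁻¹) * h = t := by group
    rwa [e] at h4
  · rintro ⟨v, ⟨h1, h2⟩, rfl⟩
    refine ⟨?_, fun t ht hc => ?_⟩
    · rw [mem_cjS]
      have e : h⁻¹ * (h * v * h⁻¹) * h = v := by group
      rw [e]
      exact h1
    · rw [TTC_TT hFEQ M, mem_cjS] at ht
      rw [TTC_cz hFEQ M, mem_cjS]
      refine h2 _ ht ?_
      have hc' : t * (h * v * h⁻¹) = h * v * h⁻¹ * t := hc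
      calc h⁻¹ * t * h * v = h⁻¹ * (t * (h * v * h⁻¹)) * h := by group
        _ = h⁻¹ * (h * v * h⁻¹ * t) * h := by rw [hc']
        _ = v * (h⁻¹ * t * h) := by group

end

/-- TTC -/
theorem TTC (hFEQ : FEQ_stmt) : TTC_stmt := by
  intro G _ _ M D
  refine ⟨fun θ _ θ' _ hs => le_antisymm (TTC_le hFEQ M D θ θ' hs) (TTC_le hFEQ M D θ' θ hs.symm), fun θ _ h => ?_⟩
  refine ⟨TTC_TT hFEQ M D θ h, ?_, ?_, TTC_card hFEQ M h D⟩
  · unfold iI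
    rw [TTC_TT hFEQ M, TTC_cz hFEQ M, TTC_rel hFEQ M]
  · rw [TTC_RG hFEQ M]
    refine Set.ncard_image_of_injective _ fun a b hab => ?_
    have hab' : h * a * h⁻¹ = h * b * h⁻¹ := hab
    exact mul_left_cancel (mul_right_cancel hab')

end Pool.Agent.FI4I
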